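import Pool.Agent.H72.EN.Targets

/-!
# Row BLK: from sparse sequences to the logarithmic sum
-/

set_option autoImplicit false

open Finset Pool.Agent.H6.N4D Pool.Agent.H93.EB Pool.Agent.H28.EN Pool.Agent.H72.EN

namespace Pool.Agent.H69.ENL

private lemma sum_split (g : ℕ → ℝ) (K : ℕ) : ∑ i ∈ range K, g i =
    ∑ i ∈ range ((K + 1) / 2), g (2 * i) + ∑ i ∈ range (K / 2), g (2 * i + 1) := by
  induction K with
  | zero => simp
  | succ K ih =>
    rw [sum_range_succ, ih]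
    rcases Nat.even_or_odd' K with ⟨j, hj | hj⟩
    · have h1 : (K + 1 + 1) / 2 = (K + 1) / 2 + 1 := by omega
      have h2 : (K + 1) / 2 = j := by omega
      have h3 : K / 2 = j := by omega
      rw [h1, sum_range_succ, h2, h3, hj]
      ring
    · have h1 : (K + 1 + 1) / 2 = (K + 1) / 2 := by omega
      have h2 : (K + 1) / 2 = K / 2 + 1 := by omega
      have h3 : K / 2 = j := by omega
      rw [h1, h2, sum_range_succ (fun i => g (2 * i + 1)), h3, hj]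
      ring

private lemma sum_blocks (F : ℕ → ℝ) (B m₀ : ℕ) (hB : 1 ≤ B) (K : ℕ) :
    ∑ m ∈ Ico m₀ (m₀ * B ^ K), F m =
      ∑ i ∈ range K, ∑ m ∈ Ico (m₀ * B ^ i) (m₀ * B ^ (i + 1)), F m := by
  induction K with
  | zero => simp
  | succ K ih =>
    rw [sum_range_succ, ← ih, sum_Ico_consecutive]
    · exact Nat.le_mul_of_pos_right _ (by positivity)
    · exact Nat.mul_le_mul_left _ (Nat.pow_le_pow_right hB (Nat.le_succ K))

theorem pf_BLK : T_BLK := by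
  classical
  intro B m₀ me b E hB hm₀ hb hE
  have hB1 : 1 ≤ B := by omega
  have hex : ∃ k, me < m₀ * B ^ k := by
    refine ⟨me, ?_⟩
    calc me < 2 ^ me := Nat.lt_two_pow_self
      _ ≤ B ^ me := Nat.pow_le_pow_left hB me
      _ ≤ m₀ * B ^ me := Nat.le_mul_of_pos_left _ hm₀
  obtain ⟨K, hK1, hK2⟩ : ∃ K, me < m₀ * B ^ K ∧ ∀ i < K, m₀ * B ^ i ≤ me :=
    ⟨Nat.find hex, Nat.find_spec hex, fun i hi => not_lt.1 (Nat.find_min hex hi)⟩
  have hpow : ∀ i, m₀ * B ^ i < m₀ * B ^ (i + 1) := fun i =>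
    Nat.mul_lt_mul_of_pos_left (Nat.pow_lt_pow_right (by omega) (Nat.lt_succ_self i)) hm₀
  have hc : ∀ i : ℕ, ∃ c : ℕ, i < K → (m₀ * B ^ i ≤ c ∧ c < m₀ * B ^ (i + 1) ∧ c ≤ me ∧
      ∀ m, m₀ * B ^ i ≤ m → m < m₀ * B ^ (i + 1) → m ≤ me → b m ≤ b c) := by
    intro i
    by_cases hi : i < K
    · obtain ⟨c, hc1, hc2⟩ := exists_max_image
        ((Ico (m₀ * B ^ i) (m₀ * B ^ (i + 1))).filter (fun m => m ≤ me)) b
        ⟨m₀ * B ^ i, mem_filter.2 ⟨mem_Ico.2 ⟨le_rfl, hpow i⟩, hK2 i hi⟩⟩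
      rw [mem_filter, mem_Ico] at hc1
      exact ⟨c, fun _ => ⟨hc1.1.1, hc1.1.2, hc1.2, fun m h1 h2 h3 =>
        hc2 m (mem_filter.2 ⟨mem_Ico.2 ⟨h1, h2⟩, h3⟩)⟩⟩
    · exact ⟨0, fun h => absurd h hi⟩
  choose c hc using hc
  have hstep : ∀ i j, j = i + 2 → j < K → B * c i ≤ c j := by
    intro i j hij hj
    subst hij
    have h1 := (hc i (by omega)).2.1
    have h2 := (hc (i + 2) hj).1
    calc B * c i ≤ B * (m₀ * B ^ (i + 1)) := Nat.mul_le_mul_left _ h1.le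
      _ = m₀ * B ^ (i + 2) := by ring
      _ ≤ c (i + 2) := h2
  have hlow : ∀ i < K, m₀ ≤ c i ∧ c i ≤ me := fun i hi =>
    ⟨(Nat.le_mul_of_pos_right _ (by positivity)).trans (hc i hi).1, (hc i hi).2.2.1⟩
  have heven := hE ((K + 1) / 2) (fun i => c (2 * i))
    ⟨fun i hi => hlow _ (by omega), fun i hi => hstep _ _ (by ring) (by omega)⟩
  have hodd := hE (K / 2) (fun i => c (2 * i + 1))
    ⟨fun i hi => hlow _ (by omega), fun i hi => hstep _ _ (by ring) (by omega)⟩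
  -- the function
  obtain ⟨F, hF⟩ : ∃ F : ℕ → ℝ, F = fun m => if m ≤ me then 1 / (m : ℝ) * b m else 0 :=
    ⟨_, rfl⟩
  have hF0 : ∀ m, 0 ≤ F m := by
    intro m
    rw [hF]
    dsimp only
    split_ifs
    · exact mul_nonneg (by positivity) (hb m)
    · exact le_rfl
  have h1 : ∑ m ∈ Icc m₀ me, 1 / (m : ℝ) * b m ≤ ∑ m ∈ Ico m₀ (m₀ * B ^ K), F m := by
    calc ∑ m ∈ Icc m₀ me, 1 / (m : ℝ) * b m = ∑ m ∈ Icc m₀ me, F m := by
          refine sum_congr rfl fun m hm => ?_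
          rw [hF]
          dsimp only
          rw [if_pos (mem_Icc.1 hm).2]
      _ ≤ ∑ m ∈ Ico m₀ (m₀ * B ^ K), F m := by
          refine sum_le_sum_of_subset_of_nonneg ?_ fun m _ _ => hF0 m
          intro m hm
          rw [mem_Icc] at hm
          exact mem_Ico.2 ⟨hm.1, by omega⟩
  have h2 : ∀ i ∈ range K, ∑ m ∈ Ico (m₀ * B ^ i) (m₀ * B ^ (i + 1)), F m ≤
      (B : ℝ) * b (c i) := by
    intro i hi
    rw [mem_range] at hi
    obtain ⟨_, _, _, hmax⟩ := hc i hi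
    have hp : (0 : ℝ) < (m₀ : ℝ) * (B : ℝ) ^ i := by
      have h3 : (0 : ℝ) < m₀ := by exact_mod_cast hm₀
      have h4 : (0 : ℝ) < B := by exact_mod_cast hB1
      positivity
    have h5 : ∀ m ∈ Ico (m₀ * B ^ i) (m₀ * B ^ (i + 1)), F m ≤
        1 / ((m₀ : ℝ) * (B : ℝ) ^ i) * b (c i) := by
      intro m hm
      rw [mem_Ico] at hm
      rw [hF]
      dsimp only
      split_ifs with h
      · refine mul_le_mul ?_ (hmax m hm.1 hm.2 h) (hb m) (by positivity)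
        refine one_div_le_one_div_of_le hp ?_
        have : ((m₀ * B ^ i : ℕ) : ℝ) ≤ (m : ℝ) := by exact_mod_cast hm.1
        push_cast at this
        exact this
      · exact mul_nonneg (by positivity) (hb _)
    refine (sum_le_sum h5).trans ?_
    rw [sum_const, Nat.card_Ico, nsmul_eq_mul, ← mul_assoc]
    refine mul_le_mul_of_nonneg_right ?_ (hb _)
    have h6 : ((m₀ * B ^ (i + 1) - m₀ * B ^ i : ℕ) : ℝ) ≤
        (B : ℝ) * ((m₀ : ℝ) * (B : ℝ) ^ i) := by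
      have h7 : ((m₀ * B ^ (i + 1) - m₀ * B ^ i : ℕ) : ℝ) ≤ ((m₀ * B ^ (i + 1) : ℕ) : ℝ) := by
        exact_mod_cast Nat.sub_le _ _
      refine h7.trans (le_of_eq ?_)
      push_cast
      ring
    calc ((m₀ * B ^ (i + 1) - m₀ * B ^ i : ℕ) : ℝ) * (1 / ((m₀ : ℝ) * (B : ℝ) ^ i))
        ≤ (B : ℝ) * ((m₀ : ℝ) * (B : ℝ) ^ i) * (1 / ((m₀ : ℝ) * (B : ℝ) ^ i)) :=
          mul_le_mul_of_nonneg_right h6 (by positivity)
      _ = B := by
          rw [mul_assoc, mul_one_div, div_self hp.ne', mul_one]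
  have h8 : ∑ m ∈ Ico m₀ (m₀ * B ^ K), F m ≤ (B : ℝ) * ∑ i ∈ range K, b (c i) := by
    rw [sum_blocks F B m₀ hB1 K, mul_sum]
    exact sum_le_sum h2
  have h9 : ∑ i ∈ range K, b (c i) ≤ 2 * E := by
    rw [sum_split (fun i => b (c i)) K]
    linarith
  calc ∑ m ∈ Icc m₀ me, 1 / (m : ℝ) * b m ≤ (B : ℝ) * ∑ i ∈ range K, b (c i) := h1.trans h8
    _ ≤ (B : ℝ) * (2 * E) := mul_le_mul_of_nonneg_left h9 (Nat.cast_nonneg B)
    _ = 2 * B * E := by ring

end Pool.Agent.H69.ENL
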