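import Pool.Agent.H41.ENL.Schrijver

/-!
# The alternation number of a set system and the dichromatic number of its Kneser graph
-/

set_option autoImplicit false

namespace Pool.Agent.H69.ENL

open Finset Pool.Agent.H41.ENL

/-- one member in `A` or in `B` is enough, at the cost of one more level -/
theorem cross_bound' {V : Type*} {n : ℕ} (S : V → Finset (Fin n)) (hS : ∀ v, (S v).Nonempty)
    {a d : ℕ} (ha : 0 < a)
    (hA : ∀ A B : Finset (Fin n), Disjoint A B → AltS A B a → (∃ v, S v ⊆ A) ∨ ∃ v, S v ⊆ B)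
    (h : CrossMap (kneser S) d) : n ≤ a + d := by
  classical
  obtain ⟨F, hF1, hF2⟩ := h
  let 𝒜 : Finset (Fin n) → Set V := fun A => {v | S v ⊆ A}
  let P : Finset (Fin n) → Prop := fun A => ∃ v, S v ⊆ A
  have hPmono : ∀ A A', A ⊆ A' → P A → P A' := by
    rintro A A' hAA ⟨v, hv⟩
    exact ⟨v, hv.trans hAA⟩
  have hone : ∀ A B, Disjoint A B → (A ∪ B).Nonempty → a ≤ alt A B → P A ∨ P B := by
    intro A B hdis hne halt
    have h1 := (alt_spec hne).anti halt
    rcases h1 with h1 | h1
    · exact hA A B hdis h1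
    · exact (hA B A hdis.symm h1).symm
  have hpair : ∀ A B, Disjoint A B → P A → P B → IsPair (kneser S) (𝒜 A) (𝒜 B) := by
    intro A B hdis h1 h2
    refine ⟨h1, h2, ?_⟩
    intro u hu v hv
    have hu' : S u ⊆ A := hu
    have hv' : S v ⊆ B := hv
    rw [kneser, SimpleGraph.fromRel_adj]
    have h3 : Disjoint (S u) (S v) := hdis.mono hu' hv'
    refine ⟨?_, Or.inl h3⟩
    rintro rfl
    rw [disjoint_self] at h3
    exact (hS u).ne_empty h3
  let f : Finset (Fin n) → Finset (Fin n) → ℤ := fun A B =>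
    if a ≤ alt A B then
      if P A then (if P B then (F (𝒜 A) (𝒜 B)).sign * ((a : ℤ) + |F (𝒜 A) (𝒜 B)|) else (a : ℤ))
      else -(a : ℤ)
    else sgm A B * (alt A B : ℤ)
  have fboth : ∀ A B, a ≤ alt A B → P A → P B →
      f A B = (F (𝒜 A) (𝒜 B)).sign * ((a : ℤ) + |F (𝒜 A) (𝒜 B)|) := by
    intro A B h1 h2 h3
    simp only [f]
    rw [if_pos h1, if_pos h2, if_pos h3]
  have ffst : ∀ A B, a ≤ alt A B → P A → ¬ P B → f A B = (a : ℤ) := by
    intro A B h1 h2 h3
    simp only [f]
    rw [if_pos h1, if_pos h2, if_neg h3]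
  have fsnd : ∀ A B, a ≤ alt A B → ¬ P A → f A B = -(a : ℤ) := by
    intro A B h1 h2
    simp only [f]
    rw [if_pos h1, if_neg h2]
  have flow : ∀ A B, ¬ a ≤ alt A B → f A B = sgm A B * (alt A B : ℤ) := by
    intro A B h1
    simp only [f]
    rw [if_neg h1]
  have habs1 : ∀ A B, Disjoint A B → a ≤ alt A B → P A → P B →
      |f A B| = (a : ℤ) + |F (𝒜 A) (𝒜 B)| := by
    intro A B hdis halt hPA hPB
    have h1 := (hF1 _ _ (hpair A B hdis hPA hPB)).2.1
    rw [fboth A B halt hPA hPB, abs_mul]
    have h2 : F (𝒜 A) (𝒜 B) ≠ 0 := by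
      intro h0
      rw [h0] at h1
      simp at h1
    have h3 : |(F (𝒜 A) (𝒜 B)).sign| = 1 := by
      rcases lt_or_gt_of_ne h2 with h | h
      · rw [Int.sign_eq_neg_one_of_neg h]; rfl
      · rw [Int.sign_eq_one_of_pos h]; rfl
    rw [h3, one_mul, abs_of_nonneg]
    positivity
  have habs2 : ∀ A B, ¬ a ≤ alt A B → |f A B| = alt A B := by
    intro A B halt
    rw [flow A B halt, abs_mul, sgm_abs, one_mul, Nat.abs_cast]
  have habs3 : ∀ A B, a ≤ alt A B → ¬ (P A ∧ P B) → |f A B| = (a : ℤ) := by
    intro A B halt hnot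
    by_cases hPA : P A
    · rw [ffst A B halt hPA (fun h => hnot ⟨hPA, h⟩), Nat.abs_cast]
    · rw [fsnd A B halt hPA, abs_neg, Nat.abs_cast]
  have hgeF : ∀ A B, Disjoint A B → P A → P B → (1 : ℤ) ≤ |F (𝒜 A) (𝒜 B)| :=
    fun A B hdis hPA hPB => (hF1 _ _ (hpair A B hdis hPA hPB)).2.1
  refine tucker f ?_ ?_
  · intro A B hdis hne
    have hpos := alt_pos hne
    by_cases halt : a ≤ alt A B
    · have halt2 : a ≤ alt B A := by rw [alt_comm A B]; exact halt
      by_cases hboth : P A ∧ P B
      · obtain ⟨hPA, hPB⟩ := hboth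
        obtain ⟨h1, h2, h3⟩ := hF1 _ _ (hpair A B hdis hPA hPB)
        refine ⟨?_, ?_, ?_⟩
        · rw [fboth A B halt hPA hPB, fboth B A halt2 hPB hPA, h1, abs_neg, Int.sign_neg]
          ring
        · rw [habs1 A B hdis halt hPA hPB]
          have : (0 : ℤ) ≤ (a : ℤ) := by positivity
          linarith
        · rw [habs1 A B hdis halt hPA hPB]
          push_cast
          linarith
      · refine ⟨?_, ?_, ?_⟩
        · rcases hone A B hdis hne halt with hPA | hPB
          · rw [ffst A B halt hPA (fun h => hboth ⟨hPA, h⟩),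
              fsnd B A halt2 (fun h => hboth ⟨hPA, h⟩)]
          · rw [fsnd A B halt (fun h => hboth ⟨h, hPB⟩),
              ffst B A halt2 hPB (fun h => hboth ⟨h, hPB⟩), neg_neg]
        · rw [habs3 A B halt hboth]
          exact_mod_cast ha
        · rw [habs3 A B halt hboth]
          have : a ≤ a + d := by omega
          exact_mod_cast this
    · have halt2 : ¬ a ≤ alt B A := by rw [alt_comm A B]; exact halt
      refine ⟨?_, ?_, ?_⟩
      · rw [flow A B halt, flow B A halt2, alt_comm A B, sgm_comm hdis hne]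
        ring
      · rw [habs2 A B halt]
        exact_mod_cast hpos
      · rw [habs2 A B halt]
        have : alt A B ≤ a + d := by omega
        exact_mod_cast this
  · intro A B A' B' hdis hne hdis' hAA hBB
    have hne' : (A' ∪ B').Nonempty := hne.mono (Finset.union_subset_union hAA hBB)
    have hle := alt_mono hne hAA hBB
    by_cases halt : a ≤ alt A B
    · have halt' : a ≤ alt A' B' := halt.trans hle
      by_cases hboth : P A ∧ P B
      · obtain ⟨hPA, hPB⟩ := hboth
        have hPA' := hPmono A A' hAA hPA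
        have hPB' := hPmono B B' hBB hPB
        rcases hF2 _ _ _ _ (hpair A B hdis hPA hPB) (hpair A' B' hdis' hPA' hPB')
          (fun v hv => Finset.Subset.trans hv hAA) (fun v hv => Finset.Subset.trans hv hBB)
          with h1 | h1
        · left
          rw [fboth A B halt hPA hPB, fboth A' B' halt' hPA' hPB', h1]
        · right
          rw [habs1 A B hdis halt hPA hPB, habs1 A' B' hdis' halt' hPA' hPB']
          linarith
      · by_cases hboth' : P A' ∧ P B'
        · right
          obtain ⟨hPA', hPB'⟩ := hboth'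
          rw [habs3 A B halt hboth, habs1 A' B' hdis' halt' hPA' hPB']
          have := hgeF A' B' hdis' hPA' hPB'
          linarith
        · left
          rcases hone A B hdis hne halt with hPA | hPB
          · have hPA' := hPmono A A' hAA hPA
            rw [ffst A B halt hPA (fun h => hboth ⟨hPA, h⟩),
              ffst A' B' halt' hPA' (fun h => hboth' ⟨hPA', h⟩)]
          · have hPB' := hPmono B B' hBB hPB
            rw [fsnd A B halt (fun h => hboth ⟨h, hPB⟩),
              fsnd A' B' halt' (fun h => hboth' ⟨h, hPB'⟩)]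
    · by_cases halt' : a ≤ alt A' B'
      · right
        rw [habs2 A B halt]
        have h2 : alt A B < a := by omega
        have h3 : (alt A B : ℤ) < (a : ℤ) := by exact_mod_cast h2
        by_cases hboth' : P A' ∧ P B'
        · obtain ⟨hPA', hPB'⟩ := hboth'
          rw [habs1 A' B' hdis' halt' hPA' hPB']
          have := hgeF A' B' hdis' hPA' hPB'
          linarith
        · rw [habs3 A' B' halt' hboth']
          exact h3
      · rcases hle.lt_or_eq with h1 | h1
        · right
          rw [habs2 A B halt, habs2 A' B' halt']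
          exact_mod_cast h1
        · left
          rw [flow A B halt, flow A' B' halt', ← h1, sgm_mono hdis hdis' hne hAA hBB h1]

/-- general Kneser graphs, ordinary alternation number -/
theorem kneser_alt {V : Type*} {n : ℕ} (S : V → Finset (Fin n)) (hS : ∀ v, (S v).Nonempty)
    {a k l : ℕ} (ha : 0 < a) (hl : 0 < l)
    (hA : ∀ A B : Finset (Fin n), Disjoint A B → AltS A B a → (∃ v, S v ⊆ A) ∨ ∃ v, S v ⊆ B)
    (hcol : (kneser S).Colorable (2 ^ l)) (hn : 192 * k * l + a < n) : DiGt (kneser S) k := by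
  refine topo' _ hl hcol ?_
  intro h
  have h1 := cross_bound' S hS ha hA h
  have h2 : k * (192 * l - 1) - 1 ≤ 192 * k * l := by
    calc k * (192 * l - 1) - 1 ≤ k * (192 * l - 1) := Nat.sub_le _ _
      _ ≤ k * (192 * l) := Nat.mul_le_mul_left _ (Nat.sub_le _ _)
      _ = 192 * k * l := by ring
  omega

/-- a spanning supergraph has at least the same dichromatic number -/
theorem DiGt.mono {V : Type*} {G G' : SimpleGraph V} (h : G ≤ G') {k : ℕ} (hG : DiGt G k) :
    DiGt G' k := by
  classical
  obtain ⟨O, h1, h2, h3⟩ := hG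
  letI : LinearOrder V := linearOrderOfSTO (WellOrderingRel (α := V))
  refine ⟨fun u v => O u v ∨ (G'.Adj u v ∧ ¬ G.Adj u v ∧ u < v), ?_, ?_, ?_⟩
  · rintro u v (h4 | ⟨h4, -⟩)
    · exact h (h1 u v h4)
    · exact h4
  · intro u v huv
    by_cases hG : G.Adj u v
    · rcases h2 u v hG with ⟨h4, h5⟩ | ⟨h4, h5⟩
      · left
        refine ⟨Or.inl h4, ?_⟩
        rintro (h6 | ⟨-, h6, -⟩)
        · exact h5 h6
        · exact h6 hG.symm
      · right
        refine ⟨Or.inl h4, ?_⟩
        rintro (h6 | ⟨-, h6, -⟩)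
        · exact h5 h6
        · exact h6 hG
    · have hG' : ¬ G.Adj v u := fun h4 => hG h4.symm
      rcases lt_trichotomy u v with hlt | heq | hlt
      · left
        refine ⟨Or.inr ⟨huv, hG, hlt⟩, ?_⟩
        rintro (h6 | ⟨-, -, h6⟩)
        · exact hG' (h1 _ _ h6)
        · exact lt_asymm hlt h6
      · subst heq
        exact absurd huv (G'.loopless.irrefl u)
      · right
        refine ⟨Or.inr ⟨huv.symm, hG', hlt⟩, ?_⟩
        rintro (h6 | ⟨-, -, h6⟩)
        · exact hG (h1 _ _ h6)
        · exact lt_asymm hlt h6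
  · intro c
    obtain ⟨x, hx⟩ := h3 c
    exact ⟨x, Relation.TransGen.mono (fun u v huv => ⟨Or.inl huv.1, huv.2⟩) _ _ hx⟩

section

variable {V : Type*} {n : ℕ} {G : SimpleGraph V} {F : V → Finset (Fin n)}

theorem kneser_le (hF : ∀ u v, Disjoint (F u) (F v) → G.Adj u v) : kneser F ≤ G := by
  intro u v huv
  rw [kneser, SimpleGraph.fromRel_adj] at huv
  rcases huv.2 with h | h
  · exact hF u v h
  · exact (hF v u h).symm

theorem nonempty_of (hF : ∀ u v, Disjoint (F u) (F v) → G.Adj u v) (v : V) :
    (F v).Nonempty := by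
  by_contra h
  rw [Finset.not_nonempty_iff_eq_empty] at h
  exact G.loopless.irrefl v (hF v v (by rw [h]; exact Finset.disjoint_empty_left _))

/-- ordinary alternation number -/
theorem alt_main (hF : ∀ u v, Disjoint (F u) (F v) → G.Adj u v) {a k l : ℕ} (hl : 0 < l)
    (hA : ∀ A B : Finset (Fin n), Disjoint A B → AltS A B a → ∃ v, F v ⊆ A ∨ F v ⊆ B)
    (hcol : G.Colorable (2 ^ l)) (hn : 192 * k * l + a < n) : DiGt G k := by
  have hne := nonempty_of hF
  rcases Nat.eq_zero_or_pos a with h0 | h0
  · exfalso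
    have hn0 : 0 < n := by omega
    obtain ⟨v, hv⟩ := hA ∅ ∅ (Finset.disjoint_empty_left _)
      ⟨fun _ => ⟨0, hn0⟩, fun i j _ hj => by omega, fun i hi => by omega, fun i hi => by omega⟩
    have hv' : F v ⊆ ∅ := by
      rcases hv with h | h
      · exact h
      · exact h
    exact (hne v).ne_empty (Finset.subset_empty.1 hv')
  · refine DiGt.mono (kneser_le hF) (kneser_alt F hne h0 hl ?_ ?_ hn)
    · intro A B hdis hAB
      obtain ⟨v, hv⟩ := hA A B hdis hAB
      rcases hv with h | h
      · exact Or.inl ⟨v, h⟩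
      · exact Or.inr ⟨v, h⟩
    · exact hcol.mono_left (kneser_le hF)

/-- strong alternation number -/
theorem salt_main (hF : ∀ u v, Disjoint (F u) (F v) → G.Adj u v) {a k l : ℕ} (hl : 0 < l)
    (hA : ∀ A B : Finset (Fin n), Disjoint A B → AltS A B a → (∃ v, F v ⊆ A) ∧ ∃ v, F v ⊆ B)
    (hcol : G.Colorable (2 ^ l)) (ha : 0 < a) (hn : 192 * k * l + a ≤ n) : DiGt G k :=
  DiGt.mono (kneser_le hF) (kneser_main F (nonempty_of hF) ha hl hA
    (hcol.mono_left (kneser_le hF)) hn)

theorem card_of_altS {A B : Finset (Fin n)} {m : ℕ} (h : AltS A B m) : m ≤ (A ∪ B).card := by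
  classical
  obtain ⟨g, h1, h2, h3⟩ := h
  have hinj : Set.InjOn g (Finset.range m : Set ℕ) := by
    intro i hi j hj hij
    have hi' : i < m := by simpa using hi
    have hj' : j < m := by simpa using hj
    rcases lt_trichotomy i j with h | h | h
    · exact absurd hij (h1 i j h hj').ne
    · exact h
    · exact absurd hij.symm (h1 j i h hi').ne
  have h4 : ((Finset.range m).image g).card = m := by
    rw [Finset.card_image_of_injOn hinj, Finset.card_range]
  rw [← h4]
  refine Finset.card_le_card ?_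
  intro x hx
  obtain ⟨i, hi, rfl⟩ := Finset.mem_image.1 hx
  have hi' := Finset.mem_range.1 hi
  rcases Nat.mod_two_eq_zero_or_one i with h | h
  · exact Finset.mem_union_left _ (h2 i hi' h)
  · exact Finset.mem_union_right _ (h3 i hi' h)

/-- colourability defect -/
theorem cd_main (hF : ∀ u v, Disjoint (F u) (F v) → G.Adj u v) {c k l : ℕ} (hl : 0 < l)
    (hA : ∀ A B : Finset (Fin n), Disjoint A B → n < (A ∪ B).card + c →
      ∃ v, F v ⊆ A ∨ F v ⊆ B)
    (hcol : G.Colorable (2 ^ l)) (hn : 192 * k * l + 2 ≤ c) : DiGt G k := by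
  have hcn : c ≤ n := by
    by_contra hlt
    push Not at hlt
    obtain ⟨v, hv⟩ := hA ∅ ∅ (Finset.disjoint_empty_left _) (by simpa using hlt)
    have hv' : F v ⊆ ∅ := by
      rcases hv with h | h
      · exact h
      · exact h
    exact (nonempty_of hF v).ne_empty (Finset.subset_empty.1 hv')
  refine alt_main hF (a := n + 1 - c) hl ?_ hcol (by omega)
  intro A B hdis hAB
  have := card_of_altS hAB
  exact hA A B hdis (by omega)

end

end Pool.Agent.H69.ENL
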